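import Pool.Agent.Lib_helper99.FGA.Wanted

/-!
# FGA: block A05 (the values at the fractions of denominator at most K)
-/

set_option autoImplicit false

namespace Pool.Agent.FGA

open Finset Pool.Agent.Var35 Pool.Agent.Var73 Pool.Agent.PV Pool.Agent.FGP
open scoped ArithmeticFunction ArithmeticFunction.Moebius

theorem A05_aS_nonneg (N n : ℕ) : 0 ≤ aS N n := by
  unfold aS
  split_ifs with h
  · exact Real.log_nonneg (by exact_mod_cast h.1.one_lt.le)
  · exact le_rfl

theorem A05_sum_aS (N : ℕ) : ∑ n ∈ Icc 1 N, aS N n ≤ 2 * N := by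
  have h1 : ∑ n ∈ Icc 1 N, aS N n ≤ ∑ n ∈ Icc 1 N, (if n.Prime then Real.log n else 0) := by
    refine sum_le_sum fun n hn => ?_
    unfold aS
    by_cases hp : n.Prime
    · simp only [hp, if_true, true_and]
      split_ifs
      · exact le_rfl
      · exact Real.log_nonneg (by exact_mod_cast hp.one_lt.le)
    · simp [hp]
  have h2 : ∑ n ∈ Icc 1 N, (if n.Prime then Real.log n else 0) = Chebyshev.theta N := by
    rw [Chebyshev.theta, Nat.floor_natCast, sum_filter]
    refine sum_congr ?_ fun n _ => rfl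
    ext n
    simp [mem_Icc, mem_Ioc]
    omega
  have h3 := Chebyshev.theta_le_log4_mul_x (x := (N : ℝ)) (by positivity)
  have h4 : Real.log 4 ≤ 2 := by
    have : Real.log 4 = 2 * Real.log 2 := by
      rw [show (4 : ℝ) = 2 ^ 2 by norm_num, Real.log_pow]
      norm_num
    rw [this]
    linarith [Real.log_two_lt_d9]
  have h5 : (0 : ℝ) ≤ N := by positivity
  nlinarith

theorem A05_Ps_le (N : ℕ) (t : ℝ) : ‖Ps N t‖ ≤ 2 * N := by
  unfold Ps Bs
  refine (norm_sum_le _ _).trans ?_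
  calc ∑ n ∈ Icc 1 N, ‖(aS N n : ℂ) * e (n * t)‖ = ∑ n ∈ Icc 1 N, aS N n := by
        refine sum_congr rfl fun n _ => ?_
        rw [norm_mul, norm_e, mul_one, Complex.norm_real, Real.norm_eq_abs,
          abs_of_nonneg (A05_aS_nonneg _ _)]
    _ ≤ 2 * N := A05_sum_aS N

theorem A05_In_zero (N : ℕ) : In N 0 = N := by
  unfold In
  simp [e_zero]

theorem A05_In_le (N : ℕ) (b : ℝ) : ‖In N b‖ ≤ N := by
  unfold In
  refine (norm_sum_le _ _).trans ?_
  simp [norm_e]

theorem A05_mr_le (r : ℕ) : |mr r| ≤ 1 := by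
  unfold mr
  rcases Nat.eq_zero_or_pos r with h | h
  · simp [h]
  · rw [abs_div]
    have h1 : |((μ r : ℤ) : ℝ)| ≤ 1 := by
      have := ArithmeticFunction.abs_moebius_le_one (n := r)
      exact_mod_cast this
    have h2 : (1 : ℝ) ≤ |(Nat.totient r : ℝ)| := by
      rw [abs_of_nonneg (by positivity)]
      exact_mod_cast Nat.totient_pos.2 h
    exact div_le_one_of_le₀ (h1.trans h2) (abs_nonneg _)

theorem A05_Cd (r c : ℕ) : c ∈ Cd r ↔ c < r ∧ Nat.Coprime c r := by
  unfold Cd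
  simp

/-- distance to the integers of the difference of two fractions -/
theorem A05_nn (K r q a c : ℕ) (hr : 1 ≤ r) (hrK : r ≤ K) (hq : 1 ≤ q) (hqK : q ≤ K)
    (ha : a ∈ Cd r) (hc : c ∈ Cd q) (h0 : ¬ (q = r ∧ c = a)) :
    1 / (K : ℝ) ^ 2 ≤ nn ((a : ℝ) / r - c / q) := by
  rw [A05_Cd] at ha hc
  have hrpos : (0 : ℝ) < r := by positivity
  have hqpos : (0 : ℝ) < q := by positivity
  unfold nn
  set m : ℤ := round ((a : ℝ) / r - c / q) with hm
  have e1 : (a : ℝ) / r - c / q - m = (((a : ℤ) * q - c * r - m * r * q : ℤ) : ℝ) / (r * q) := by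
    push_cast
    field_simp
  rw [e1, abs_div, abs_of_pos (mul_pos hrpos hqpos)]
  have h2 : (a : ℤ) * q - c * r - m * r * q ≠ 0 := by
    intro h
    have hd1 : (r : ℤ) ∣ (a : ℤ) * q := ⟨c + m * q, by linarith⟩
    have hd2 : (q : ℤ) ∣ (c : ℤ) * r := ⟨a - m * r, by linarith⟩
    have hd1' : r ∣ a * q := by exact_mod_cast hd1
    have hd2' : q ∣ c * r := by exact_mod_cast hd2
    have h3 : r ∣ q := (Nat.Coprime.dvd_of_dvd_mul_left ha.2.symm hd1')
    have h4 : q ∣ r := (Nat.Coprime.dvd_of_dvd_mul_left hc.2.symm hd2')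
    have h5 : q = r := Nat.dvd_antisymm h4 h3
    subst h5
    refine h0 ⟨rfl, ?_⟩
    have h6 : (q : ℤ) * ((a : ℤ) - c - m * q) = 0 := by linarith
    have hq0 : (q : ℤ) ≠ 0 := by exact_mod_cast (by omega : q ≠ 0)
    have h7 : (a : ℤ) - c - m * q = 0 := by
      rcases mul_eq_zero.1 h6 with h | h
      · exact absurd h hq0
      · exact h
    have h8 : (a : ℤ) - c = m * q := by linarith
    have h9 : (a : ℤ) - c = 0 := by
      have hlt : |(a : ℤ) - c| < q := by
        rw [abs_lt]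
        constructor
        · have : (c : ℤ) < q := by exact_mod_cast hc.1
          have : (0 : ℤ) ≤ a := by positivity
          linarith
        · have : (a : ℤ) < q := by exact_mod_cast ha.1
          have : (0 : ℤ) ≤ c := by positivity
          linarith
      exact Int.eq_zero_of_abs_lt_dvd ⟨m, by rw [h8]; ring⟩ hlt
    have : (c : ℤ) = a := by linarith
    exact_mod_cast this
  have h3 : (1 : ℝ) ≤ |(((a : ℤ) * q - c * r - m * r * q : ℤ) : ℝ)| := by
    have := Int.one_le_abs h2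
    exact_mod_cast this
  have hle : (r : ℝ) * q ≤ (K : ℝ) ^ 2 := by
    have h4 : (r : ℝ) ≤ K := by exact_mod_cast hrK
    have h5 : (q : ℝ) ≤ K := by exact_mod_cast hqK
    rw [sq]
    exact mul_le_mul h4 h5 hqpos.le (by linarith)
  calc 1 / (K : ℝ) ^ 2 ≤ 1 / (r * q) := one_div_le_one_div_of_le (mul_pos hrpos hqpos) hle
    _ ≤ _ := by gcongr

theorem A05_pr (h1 : W01) (h4 : W04) : A05 := by
  obtain ⟨C, hC, K0, hK0⟩ := h1
  obtain ⟨C', hC', K1, hK1⟩ := h4
  refine ⟨C ^ 2 + 2 * C', by positivity, max (max K0 K1) 10, ?_⟩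
  intro K hK N hR r hr a ha
  have hKa : K0 ≤ K := le_trans (le_trans (le_max_left _ _) (le_max_left _ _)) hK
  have hKb : K1 ≤ K := le_trans (le_trans (le_max_right _ _) (le_max_left _ _)) hK
  obtain ⟨-, hsum, hvle, -, hdec⟩ := hK0 K hKa N hR
  obtain ⟨-, hWt⟩ := hK1 K hKb N hR
  have h10 : 10 ≤ K := hR.hK
  have hKr : (10 : ℝ) ≤ K := by exact_mod_cast h10
  have hK0' : (0 : ℝ) < K := by linarith
  have hNr : (K : ℝ) ^ 400 ≤ N := by exact_mod_cast hR.hN
  have hN0 : (0 : ℝ) ≤ N := by positivity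
  have hH : (K : ℝ) ^ 392 ≤ Hw N K := by
    unfold Hw
    rw [le_div_iff₀ (by positivity)]
    calc (K : ℝ) ^ 392 * (K : ℝ) ^ 8 = (K : ℝ) ^ 400 := by ring
      _ ≤ (N : ℝ) := hNr
  have hv0 : vh N K 0 = 1 := by
    unfold vh
    rw [← hsum]
    refine sum_congr rfl fun m _ => ?_
    simp
  rw [mem_Icc] at hr
  -- the other fractions
  have hother : ∀ q ∈ Icc 1 K, ∀ c ∈ Cd q, ¬ (q = r ∧ c = a) →
      vh N K ((a : ℝ) / r - c / q) ^ 2 ≤ C ^ 2 / (K : ℝ) ^ 20 := by
    intro q hq c hc h0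
    rw [mem_Icc] at hq
    have h2 := A05_nn K r q a c hr.1 hr.2 hq.1 hq.2 ha hc h0
    have h3 := hdec ((a : ℝ) / r - c / q)
    have h5 : (K : ℝ) ^ 5 ≤ Hw N K * nn ((a : ℝ) / r - c / q) := by
      calc (K : ℝ) ^ 5 ≤ (K : ℝ) ^ 390 := pow_le_pow_right₀ (by linarith) (by norm_num)
        _ = (K : ℝ) ^ 392 * (1 / (K : ℝ) ^ 2) := by field_simp
        _ ≤ Hw N K * nn ((a : ℝ) / r - c / q) := mul_le_mul hH h2 (by positivity) (by
            unfold Hw; positivity)
    have h6 : (K : ℝ) ^ 10 ≤ (Hw N K * nn ((a : ℝ) / r - c / q)) ^ 2 := by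
      calc (K : ℝ) ^ 10 = ((K : ℝ) ^ 5) ^ 2 := by ring
        _ ≤ _ := pow_le_pow_left₀ (by positivity) h5 2
    have h7 : |vh N K ((a : ℝ) / r - c / q)| * (K : ℝ) ^ 10 ≤ C :=
      (mul_le_mul_of_nonneg_left h6 (abs_nonneg _)).trans h3
    have h8 : |vh N K ((a : ℝ) / r - c / q)| ≤ C / (K : ℝ) ^ 10 := by
      rw [le_div_iff₀ (by positivity)]
      exact h7
    calc vh N K ((a : ℝ) / r - c / q) ^ 2 = |vh N K ((a : ℝ) / r - c / q)| ^ 2 := (sq_abs _).symm
      _ ≤ (C / (K : ℝ) ^ 10) ^ 2 := pow_le_pow_left₀ (abs_nonneg _) h8 2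
      _ = C ^ 2 / (K : ℝ) ^ 20 := by rw [div_pow]; ring
  set δ : ℝ := C ^ 2 / (K : ℝ) ^ 20 with hδ
  have hδ0 : 0 ≤ δ := by positivity
  -- the explicit part
  have hg : ‖gh N K ((a : ℝ) / r) - ((mr r * N : ℝ) : ℂ)‖ ≤ K ^ 2 * δ * N := by
    have e0 : ((mr r * N : ℝ) : ℂ) = ∑ q ∈ Icc 1 K, ∑ c ∈ Cd q,
        (if q = r ∧ c = a then ((mr r * N : ℝ) : ℂ) else 0) := by
      rw [sum_eq_single r]
      · rw [sum_eq_single a]
        · simp
        · intro c _ hca
          simp [hca]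
        · intro h
          exact absurd ha h
      · intro q _ hqr
        refine sum_eq_zero fun c _ => ?_
        simp [hqr]
      · intro h
        exact absurd (mem_Icc.2 hr) h
    rw [e0]
    unfold gh
    rw [← sum_sub_distrib]
    calc ‖∑ q ∈ Icc 1 K, (∑ c ∈ Cd q, ((mr q * vh N K ((a : ℝ) / r - c / q) ^ 2 : ℝ) : ℂ) *
            In N ((a : ℝ) / r - c / q) -
          ∑ c ∈ Cd q, (if q = r ∧ c = a then ((mr r * N : ℝ) : ℂ) else 0))‖
        ≤ ∑ q ∈ Icc 1 K, (K : ℝ) * (δ * N) := by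
          refine (norm_sum_le _ _).trans (sum_le_sum fun q hq => ?_)
          rw [← sum_sub_distrib]
          calc ‖∑ c ∈ Cd q, (((mr q * vh N K ((a : ℝ) / r - c / q) ^ 2 : ℝ) : ℂ) *
                  In N ((a : ℝ) / r - c / q) -
                (if q = r ∧ c = a then ((mr r * N : ℝ) : ℂ) else 0))‖
              ≤ ∑ c ∈ Cd q, δ * N := by
                refine (norm_sum_le _ _).trans (sum_le_sum fun c hc => ?_)
                by_cases h : q = r ∧ c = a
                · rw [if_pos h]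
                  obtain ⟨h1, h2⟩ := h
                  subst h1
                  subst h2
                  have e1 : (c : ℝ) / q - c / q = 0 := sub_self _
                  rw [e1, hv0, A05_In_zero]
                  push_cast
                  rw [one_pow, mul_one, sub_self, norm_zero]
                  positivity
                · rw [if_neg h, sub_zero, norm_mul, Complex.norm_real, Real.norm_eq_abs, abs_mul,
                    abs_of_nonneg (sq_nonneg (vh N K ((a : ℝ) / r - c / q)))]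
                  refine mul_le_mul ?_ (A05_In_le _ _) (norm_nonneg _) hδ0
                  calc |mr q| * vh N K ((a : ℝ) / r - c / q) ^ 2 ≤ 1 * δ :=
                        mul_le_mul (A05_mr_le q) (hother q hq c hc h) (sq_nonneg _) zero_le_one
                    _ = δ := one_mul _
            _ = (Cd q).card * (δ * N) := by rw [sum_const, nsmul_eq_mul]
            _ ≤ K * (δ * N) := by
                refine mul_le_mul_of_nonneg_right ?_ (by positivity)
                rw [card_Cd]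
                exact_mod_cast (Nat.totient_le q).trans (mem_Icc.1 hq).2
      _ = K * (K * (δ * N)) := by
          rw [sum_const, nsmul_eq_mul, Nat.card_Icc, Nat.add_sub_cancel]
      _ = K ^ 2 * δ * N := by ring
  -- the small part
  have hf : ‖fh N K ((a : ℝ) / r)‖ ≤ 2 * N * (C' / (K : ℝ) ^ 7) := by
    unfold fh
    rw [norm_mul, Complex.norm_real, Real.norm_eq_abs]
    refine mul_le_mul (A05_Ps_le _ _) ?_ (abs_nonneg _) (by positivity)
    refine hWt ((a : ℝ) / r) (a : ℤ) r (mem_Icc.2 hr) ?_ ?_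
    · rw [Nat.isCoprime_iff_coprime]
      exact ((A05_Cd r a).1 ha).2
    · have : (a : ℝ) / r - ((a : ℤ) : ℝ) / r = 0 := by push_cast; ring
      rw [this, abs_zero]
      positivity
  have hKδ : (K : ℝ) ^ 2 * δ ≤ C ^ 2 / (K : ℝ) ^ 7 := by
    rw [hδ]
    have e1 : (K : ℝ) ^ 2 * (C ^ 2 / K ^ 20) = C ^ 2 / K ^ 18 := by field_simp
    rw [e1]
    apply div_le_div_of_nonneg_left (by positivity) (by positivity)
    exact pow_le_pow_right₀ (by linarith) (by norm_num)
  calc ‖fh N K ((a : ℝ) / r) + gh N K ((a : ℝ) / r) - ((mr r * N : ℝ) : ℂ)‖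
      = ‖fh N K ((a : ℝ) / r) + (gh N K ((a : ℝ) / r) - ((mr r * N : ℝ) : ℂ))‖ := by ring_nf
    _ ≤ ‖fh N K ((a : ℝ) / r)‖ + ‖gh N K ((a : ℝ) / r) - ((mr r * N : ℝ) : ℂ)‖ := norm_add_le _ _
    _ ≤ 2 * N * (C' / (K : ℝ) ^ 7) + K ^ 2 * δ * N := add_le_add hf hg
    _ ≤ 2 * N * (C' / (K : ℝ) ^ 7) + C ^ 2 / (K : ℝ) ^ 7 * N := by
        have := mul_le_mul_of_nonneg_right hKδ hN0
        linarith
    _ = (C ^ 2 + 2 * C') * N / (K : ℝ) ^ 7 := by ring

end Pool.Agent.FGA
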