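import Pool.Agent.Lib_helper99.FGA.Wanted

/-!
# FGA: block A06 (the small denominators)
-/

set_option autoImplicit false

namespace Pool.Agent.FGA

open Finset Pool.Agent.Var35 Pool.Agent.Var73 Pool.Agent.PV Pool.Agent.FGP
open scoped ArithmeticFunction ArithmeticFunction.Moebius

theorem A06_reindex (f : ℝ → ℝ) (Q R : ℕ) (hQ : 1 ≤ Q) :
    ∑ l ∈ (range Q).filter (fun l : ℕ => HC.den l Q ≤ R), f ((l : ℝ) / Q) =
      ∑ r ∈ Q.divisors.filter (fun r => r ≤ R), ∑ c ∈ Cd r, f ((c : ℝ) / r) := by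
  have h1 := HC.sml_reindex f R Q hQ
  have h0 := HC.sml_reindex f 0 Q hQ
  have e1 : (range Q).filter (fun l : ℕ => 0 < HC.den l Q) = range Q := by
    refine filter_true_of_mem fun l _ => ?_
    unfold HC.den
    rw [Int.gcd_natCast_natCast]
    exact Nat.div_pos (Nat.le_of_dvd (by omega) (Nat.gcd_dvd_right l Q))
      (Nat.gcd_pos_of_pos_right _ (by omega))
  have e2 : Q.divisors.filter (fun r => 0 < r) = Q.divisors := by
    refine filter_true_of_mem fun r hr => Nat.pos_of_mem_divisors hr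
  rw [e1, e2] at h0
  have s1 := sum_filter_add_sum_filter_not (range Q) (fun l : ℕ => HC.den l Q ≤ R)
    (fun l : ℕ => f ((l : ℝ) / Q))
  have s2 := sum_filter_add_sum_filter_not Q.divisors (fun r : ℕ => r ≤ R)
    (fun r : ℕ => ∑ c ∈ Cd r, f ((c : ℝ) / r))
  simp only [not_le] at s1 s2
  linarith

theorem A06_mr_le (r : ℕ) : |mr r| ≤ 1 := by
  unfold mr
  rcases Nat.eq_zero_or_pos r with h | h
  · simp [h]
  · rw [abs_div]
    have h1 : |((μ r : ℤ) : ℝ)| ≤ 1 := by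
      have := ArithmeticFunction.abs_moebius_le_one (n := r)
      exact_mod_cast this
    have h2 : (1 : ℝ) ≤ |(Nat.totient r : ℝ)| := by
      rw [abs_of_nonneg (by positivity)]
      exact_mod_cast Nat.totient_pos.2 h
    exact div_le_one_of_le₀ (h1.trans h2) (abs_nonneg _)

theorem A06_sq (z : ℂ) (w M ε : ℝ) (hw : |w| ≤ M) (h : ‖z - (w : ℂ)‖ ≤ ε) :
    |‖z‖ ^ 2 - w ^ 2| ≤ ε * (2 * M + ε) := by
  have h1 : |(‖z‖ - |w|)| ≤ ε := by
    have := abs_norm_sub_norm_le z (w : ℂ)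
    rw [Complex.norm_real, Real.norm_eq_abs] at this
    exact this.trans h
  have hε : 0 ≤ ε := (norm_nonneg _).trans h
  have hM : 0 ≤ M := (abs_nonneg _).trans hw
  have h2 : ‖z‖ ≤ M + ε := by
    have := (abs_le.1 h1).2
    linarith
  have h3 : ‖z‖ ^ 2 - w ^ 2 = (‖z‖ - |w|) * (‖z‖ + |w|) := by
    rw [← sq_abs w]
    ring
  rw [h3, abs_mul, abs_of_nonneg (add_nonneg (norm_nonneg _) (abs_nonneg _))]
  exact mul_le_mul h1 (by linarith) (add_nonneg (norm_nonneg _) (abs_nonneg _)) hε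

theorem A06_pr (h5 : A05) : A06 := by
  obtain ⟨C, hC, K0, hK0⟩ := h5
  refine ⟨C * (2 + C), by positivity, max K0 1, ?_⟩
  intro K hK N hR Q R hQ hRK
  have hK' : K0 ≤ K := le_trans (le_max_left _ _) hK
  have hpt := hK0 K hK' N hR
  have h10 : 10 ≤ K := hR.hK
  have hKr : (10 : ℝ) ≤ K := by exact_mod_cast h10
  have hK0' : (0 : ℝ) < K := by linarith
  have hN0 : (0 : ℝ) ≤ N := by positivity
  have hQ0 : (0 : ℝ) < Q := by exact_mod_cast (by omega : 0 < Q)
  set ε : ℝ := C * N / (K : ℝ) ^ 7 with hε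
  have hε0 : 0 ≤ ε := by positivity
  have hεN : ε ≤ C * N := by
    rw [hε]
    exact div_le_self (by positivity) (one_le_pow₀ (by linarith))
  -- one fraction
  have hone : ∀ r ∈ Q.divisors.filter (fun r => r ≤ R), ∀ c ∈ Cd r,
      |‖fh N K ((c : ℝ) / r) + gh N K ((c : ℝ) / r)‖ ^ 2 - (mr r * N) ^ 2| ≤
        ε * (2 * N + C * N) := by
    intro r hr c hc
    rw [mem_filter] at hr
    have hr1 : r ∈ Icc 1 K := by
      rw [mem_Icc]
      exact ⟨Nat.pos_of_mem_divisors hr.1, hr.2.trans hRK⟩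
    have h1 := hpt r hr1 c hc
    have h2 : |mr r * N| ≤ N := by
      rw [abs_mul, abs_of_nonneg hN0]
      have := mul_le_mul_of_nonneg_right (A06_mr_le r) hN0
      linarith
    refine (A06_sq _ _ _ _ h2 h1).trans ?_
    refine mul_le_mul_of_nonneg_left ?_ hε0
    linarith
  have hVM : VM (fun t => fh N K t + gh N K t) Q R = (1 / (Q : ℝ)) *
      ∑ r ∈ Q.divisors.filter (fun r => r ≤ R), ∑ c ∈ Cd r,
        ‖fh N K ((c : ℝ) / r) + gh N K ((c : ℝ) / r)‖ ^ 2 := by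
    unfold VM
    rw [A06_reindex (fun t => ‖fh N K t + gh N K t‖ ^ 2) Q R hQ]
  have hTL : (N : ℝ) ^ 2 / Q * TL Q R = (1 / (Q : ℝ)) *
      ∑ r ∈ Q.divisors.filter (fun r => r ≤ R), ∑ c ∈ Cd r, (mr r * N) ^ 2 := by
    unfold TL
    have : ∀ r ∈ Q.divisors.filter (fun r => r ≤ R), ∑ c ∈ Cd r, (mr r * (N : ℝ)) ^ 2 =
        (N : ℝ) ^ 2 * (mr r ^ 2 * (Nat.totient r : ℝ)) := by
      intro r _
      rw [sum_const, card_Cd, nsmul_eq_mul]
      ring
    rw [sum_congr rfl this, ← mul_sum]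
    ring
  rw [hVM, hTL, ← mul_sub, abs_mul, abs_of_nonneg (by positivity : (0 : ℝ) ≤ 1 / (Q : ℝ)),
    ← sum_sub_distrib]
  have hmain : |∑ r ∈ Q.divisors.filter (fun r => r ≤ R), (∑ c ∈ Cd r,
      ‖fh N K ((c : ℝ) / r) + gh N K ((c : ℝ) / r)‖ ^ 2 - ∑ c ∈ Cd r, (mr r * (N : ℝ)) ^ 2)| ≤
      K * (K * (ε * (2 * N + C * N))) := by
    refine (abs_sum_le_sum_abs _ _).trans ?_
    calc ∑ r ∈ Q.divisors.filter (fun r => r ≤ R), |∑ c ∈ Cd r,
          ‖fh N K ((c : ℝ) / r) + gh N K ((c : ℝ) / r)‖ ^ 2 - ∑ c ∈ Cd r, (mr r * (N : ℝ)) ^ 2|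
        ≤ ∑ r ∈ Q.divisors.filter (fun r => r ≤ R), (K : ℝ) * (ε * (2 * N + C * N)) := by
          refine sum_le_sum fun r hr => ?_
          rw [← sum_sub_distrib]
          refine (abs_sum_le_sum_abs _ _).trans ?_
          calc ∑ c ∈ Cd r, |‖fh N K ((c : ℝ) / r) + gh N K ((c : ℝ) / r)‖ ^ 2 -
                (mr r * (N : ℝ)) ^ 2| ≤ ∑ c ∈ Cd r, ε * (2 * N + C * N) :=
                sum_le_sum fun c hc => hone r hr c hc
            _ = (Cd r).card * (ε * (2 * N + C * N)) := by rw [sum_const, nsmul_eq_mul]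
            _ ≤ K * (ε * (2 * N + C * N)) := by
                refine mul_le_mul_of_nonneg_right ?_ (by positivity)
                rw [card_Cd]
                rw [mem_filter] at hr
                exact_mod_cast (Nat.totient_le r).trans (hr.2.trans hRK)
      _ = ((Q.divisors.filter (fun r => r ≤ R)).card : ℝ) * (K * (ε * (2 * N + C * N))) := by
          rw [sum_const, nsmul_eq_mul]
      _ ≤ K * (K * (ε * (2 * N + C * N))) := by
          refine mul_le_mul_of_nonneg_right ?_ (by positivity)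
          have hsub : Q.divisors.filter (fun r => r ≤ R) ⊆ Icc 1 K := by
            intro r hr
            rw [mem_filter] at hr
            rw [mem_Icc]
            exact ⟨Nat.pos_of_mem_divisors hr.1, hr.2.trans hRK⟩
          have := card_le_card hsub
          rw [Nat.card_Icc, Nat.add_sub_cancel] at this
          exact_mod_cast this
  calc 1 / (Q : ℝ) * |∑ r ∈ Q.divisors.filter (fun r => r ≤ R), (∑ c ∈ Cd r,
      ‖fh N K ((c : ℝ) / r) + gh N K ((c : ℝ) / r)‖ ^ 2 - ∑ c ∈ Cd r, (mr r * (N : ℝ)) ^ 2)|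
      ≤ 1 / (Q : ℝ) * (K * (K * (ε * (2 * N + C * N)))) :=
        mul_le_mul_of_nonneg_left hmain (by positivity)
    _ = C * (2 + C) * ((N : ℝ) ^ 2 / Q) / (K : ℝ) ^ 5 := by
        rw [hε]
        field_simp

end Pool.Agent.FGA
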